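import Pool.Agent.helper62.K3.Defs

/-! Module hk:DD of the project HK (MP_90cd86_gt). -/

open scoped Manifold ContDiff

noncomputable section

namespace Pool.Agent.helper62.K3

open scoped Classical in
theorem DD_apply {X : Type} (f : Finset X → ZMod 2) (σ : Finset X) :
    dd f σ = ∑ x ∈ σ, f (σ.erase x) := rfl

open scoped Classical in
theorem DD_pull_apply {X Y : Type} (φ : X → Y) (f : Finset Y → ZMod 2) (σ : Finset X) :
    pull φ f σ = if (σ.image φ).card = σ.card then f (σ.image φ) else 0 := rfl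

theorem DD_two (a : ZMod 2) : a + a = 0 := CharTwo.add_self_eq_zero a

/-- hk:DD -/
theorem DD_sq {X : Type} (f : Finset X → ZMod 2) : dd (dd f) = 0 := by
  classical
  funext σ
  have h : dd (dd f) σ = ∑ x ∈ σ, ∑ y ∈ σ.erase x, f ((σ.erase x).erase y) := by
    rw [DD_apply]
    refine Finset.sum_congr rfl fun x _ => ?_
    rw [DD_apply]
  rw [h, Finset.sum_sigma']
  rw [Pi.zero_apply]
  refine Finset.sum_involution (fun p _ => ⟨p.2, p.1⟩) ?_ ?_ ?_ ?_
  · rintro ⟨x, y⟩ hp
    simp only
    rw [Finset.erase_right_comm]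
    exact DD_two _
  · rintro ⟨x, y⟩ hp _ heq
    simp only [Finset.mem_sigma, Finset.mem_erase] at hp
    have : y = x := by
      have := congrArg Sigma.fst heq
      simpa using this
    exact hp.2.1 this
  · rintro ⟨x, y⟩ hp
    simp only [Finset.mem_sigma, Finset.mem_erase] at hp ⊢
    exact ⟨hp.2.2, fun h => hp.2.1 h.symm, hp.1⟩
  · rintro ⟨x, y⟩ hp
    rfl

/-- hk:DD -/
theorem DD_pull {X Y : Type} (φ : X → Y) (f : Finset Y → ZMod 2) :
    dd (pull φ f) = pull φ (dd f) := by
  classical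
  funext σ
  have h1 : dd (pull φ f) σ = ∑ x ∈ σ, if ((σ.erase x).image φ).card = (σ.erase x).card then
      f ((σ.erase x).image φ) else 0 := by
    rw [DD_apply]
    refine Finset.sum_congr rfl fun x _ => ?_
    rw [DD_pull_apply]
  have h2 : pull φ (dd f) σ = if (σ.image φ).card = σ.card then
      ∑ y ∈ σ.image φ, f ((σ.image φ).erase y) else 0 := by
    rw [DD_pull_apply]
    by_cases hc : (σ.image φ).card = σ.card
    · rw [if_pos (by convert hc), if_pos hc, DD_apply]
    · rw [if_neg (by convert hc), if_neg hc]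
  rw [h1, h2]
  by_cases hc : (σ.image φ).card = σ.card
  · rw [if_pos hc]
    have hinj : Set.InjOn φ (σ : Set X) := Finset.card_image_iff.1 hc
    rw [Finset.sum_image (fun a ha b hb hab => hinj ha hb hab)]
    refine Finset.sum_congr rfl fun x hx => ?_
    have hsub : Set.InjOn φ ((σ.erase x : Finset X) : Set X) :=
      hinj.mono (by exact_mod_cast Finset.erase_subset x σ)
    rw [if_pos (Finset.card_image_iff.2 hsub)]
    congr 1
    ext y
    simp only [Finset.mem_image, Finset.mem_erase]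
    constructor
    · rintro ⟨z, ⟨hzx, hz⟩, rfl⟩
      exact ⟨fun h => hzx (hinj hz hx h), z, hz, rfl⟩
    · rintro ⟨hne, z, hz, rfl⟩
      exact ⟨z, ⟨fun h => hne (by rw [h]), hz⟩, rfl⟩
  · rw [if_neg hc]
    have hninj : ¬ Set.InjOn φ (σ : Set X) := fun h => hc (Finset.card_image_iff.2 h)
    simp only [Set.InjOn, not_forall] at hninj
    obtain ⟨a, ha, b, hb, hab, hne⟩ := hninj
    have ha' : a ∈ σ := by exact_mod_cast ha
    have hb' : b ∈ σ := by exact_mod_cast hb
    rw [Finset.sum_eq_add_of_mem a b ha' hb' hne]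
    · have himg : (σ.erase a).image φ = (σ.erase b).image φ := by
        ext y
        simp only [Finset.mem_image, Finset.mem_erase]
        constructor
        · rintro ⟨z, ⟨hza, hz⟩, rfl⟩
          by_cases hzb : z = b
          · exact ⟨a, ⟨hne, ha'⟩, by rw [hab, hzb]⟩
          · exact ⟨z, ⟨hzb, hz⟩, rfl⟩
        · rintro ⟨z, ⟨hzb, hz⟩, rfl⟩
          by_cases hza : z = a
          · exact ⟨b, ⟨fun h => hne h.symm, hb'⟩, by rw [← hab, hza]⟩
          · exact ⟨z, ⟨hza, hz⟩, rfl⟩
      rw [himg, Finset.card_erase_of_mem ha', Finset.card_erase_of_mem hb']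
      exact DD_two _
    · rintro c hc' ⟨hca, hcb⟩
      rw [if_neg]
      intro hcard
      have := Finset.card_image_iff.1 hcard
      exact hne (this (by simp [ha', Ne.symm hca]) (by simp [hb', Ne.symm hcb]) hab)

/-- hk:DD -/
theorem DD_comp {X Y W : Type} (φ : X → Y) (ψ : Y → W) (f : Finset W → ZMod 2) :
    pull (ψ ∘ φ) f = pull φ (pull ψ f) := by
  classical
  funext σ
  have h1 : pull (ψ ∘ φ) f σ = if (σ.image (ψ ∘ φ)).card = σ.card then f (σ.image (ψ ∘ φ))
      else 0 := by
    rw [DD_pull_apply]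
  have h2 : pull φ (pull ψ f) σ = if (σ.image φ).card = σ.card then
      (if ((σ.image φ).image ψ).card = (σ.image φ).card then f ((σ.image φ).image ψ) else 0)
      else 0 := by
    rw [DD_pull_apply]
    by_cases hc : (σ.image φ).card = σ.card
    · rw [if_pos (by convert hc), if_pos hc, DD_pull_apply]
    · rw [if_neg (by convert hc), if_neg hc]
  rw [h1, h2, Finset.image_image]
  have hle1 : (σ.image φ).card ≤ σ.card := Finset.card_image_le
  have hle2 : (σ.image (ψ ∘ φ)).card ≤ (σ.image φ).card := by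
    rw [← Finset.image_image]
    exact Finset.card_image_le
  by_cases hc : (σ.image φ).card = σ.card
  · rw [if_pos hc, hc]
  · rw [if_neg hc, if_neg (by omega)]

/-- hk:DD -/
theorem DD_id {X : Type} (f : Finset X → ZMod 2) : pull (id : X → X) f = f := by
  classical
  funext σ
  have h1 : pull (id : X → X) f σ = if (σ.image id).card = σ.card then f (σ.image id)
      else 0 := by
    rw [DD_pull_apply]
  rw [h1, Finset.image_id, if_pos rfl]

theorem DD_small_erase {X : Type} [MetricSpace X] [DecidableEq X] {δ : ℝ} {σ : Finset X}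
    (h : Small δ σ) (x : X) : Small δ (σ.erase x) := fun a ha b hb =>
  h a (Finset.mem_of_mem_erase ha) b (Finset.mem_of_mem_erase hb)

theorem DD_near_erase {X : Type} [MetricSpace X] [DecidableEq X] {F : Set X} {δ : ℝ}
    {σ : Finset X} (h : Near F δ σ) (x : X) : Near F δ (σ.erase x) := fun a ha =>
  h a (Finset.mem_of_mem_erase ha)

/-- hk:DD -/
theorem DD_Zg {X : Type} [MetricSpace X] (B : Set X) (n : ℕ) (f : Finset X → ZMod 2)
    (hf : f ∈ Zg B n) : dd f ∈ Zg B (n + 1) := by
  classical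
  obtain ⟨δ, hδ, h⟩ := hf
  refine ⟨δ, hδ, fun σ hσ hs hc => ?_⟩
  rw [DD_apply]
  refine Finset.sum_eq_zero fun x hx => ?_
  refine h _ ?_ ?_ ?_
  · intro y hy
    exact hσ (by
      have := Finset.mem_coe.1 hy
      exact_mod_cast Finset.mem_of_mem_erase this)
  · intro a ha b hb
    exact hs a (Finset.mem_of_mem_erase ha) b (Finset.mem_of_mem_erase hb)
  · rw [Finset.card_erase_of_mem hx, hc]
    rfl

/-- hk:DD -/
theorem DD_ZF {X : Type} [MetricSpace X] (F : Set X) (n : ℕ) (f : Finset X → ZMod 2)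
    (hf : f ∈ ZF F n) : dd f ∈ ZF F (n + 1) := by
  classical
  obtain ⟨δ, hδ, h⟩ := hf
  refine ⟨δ, hδ, fun σ hσ hs hc => ?_⟩
  rw [DD_apply]
  refine Finset.sum_eq_zero fun x hx => ?_
  refine h _ ?_ ?_ ?_
  · intro y hy
    exact hσ y (Finset.mem_of_mem_erase hy)
  · intro a ha b hb
    exact hs a (Finset.mem_of_mem_erase ha) b (Finset.mem_of_mem_erase hb)
  · rw [Finset.card_erase_of_mem hx, hc]
    rfl

/-- hk:DD -/
theorem DD_Vrel {X : Type} [MetricSpace X] (F : Set X) (f : Finset X → ZMod 2)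
    (hf : f ∈ Vrel F) : dd f ∈ Vrel F := by
  classical
  obtain ⟨δ, hδ, h⟩ := hf
  refine ⟨δ, hδ, fun σ hσ => ?_⟩
  rw [DD_apply]
  refine Finset.sum_eq_zero fun x hx => ?_
  refine h _ ?_
  intro y hy
  exact hσ y (Finset.mem_of_mem_erase hy)

/-- hk:DD -/
theorem DD_Vinv {X G : Type} [Group G] [MulAction G X] (K : Subgroup G)
    (f : Finset X → ZMod 2) (hf : f ∈ Vinv (X := X) K) : dd f ∈ Vinv (X := X) K := by
  classical
  intro g hg σ
  have hf' : ∀ τ : Finset X, f (τ.image (fun x => g • x)) = f τ := by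
    intro τ
    have := hf g hg τ
    convert this
  have hinj : Function.Injective (fun x : X => g • x) := MulAction.injective g
  have h1 : dd f (σ.image (fun x => g • x)) =
      ∑ y ∈ σ.image (fun x => g • x), f ((σ.image (fun x => g • x)).erase y) := by
    rw [DD_apply]
  have h2 : dd f σ = ∑ x ∈ σ, f (σ.erase x) := by
    rw [DD_apply]
  have h3 : dd f (σ.image (fun x => g • x)) = dd f σ := by
    rw [h1, h2, Finset.sum_image (fun a _ b _ hab => hinj hab)]
    refine Finset.sum_congr rfl fun x _ => ?_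
    rw [← Finset.image_erase hinj, hf']
  convert h3

/-- hk:DD -/
theorem DD_Vrel_empty {X : Type} [MetricSpace X] (f : Finset X → ZMod 2) :
    f ∈ Vrel (∅ : Set X) ↔ f ∅ = 0 := by
  constructor
  · rintro ⟨δ, hδ, h⟩
    exact h ∅ (fun x hx => by simp at hx)
  · intro h
    refine ⟨1, one_pos, fun σ hσ => ?_⟩
    have : σ = ∅ := by
      rw [Finset.eq_empty_iff_forall_notMem]
      intro x hx
      obtain ⟨p, hp, _⟩ := hσ x hx
      exact hp
    rw [this, h]

/-- hk:DD -/
theorem DD_zero {X : Type} [MetricSpace X] (f : Finset X → ZMod 2) (hf : f ∅ = 0) (B : Set X) :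
    f ∈ Zg B 0 := by
  refine ⟨1, one_pos, fun σ _ _ hc => ?_⟩
  rw [Finset.card_eq_zero.1 hc, hf]

end Pool.Agent.helper62.K3
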