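import Pool.Agent.helper71.HK.CHB

/-! Module hk:CH of the project HK (MP_90cd86_gt): the character of a group of holomorphic
automorphisms on the holomorphic 2-form. -/

open scoped Manifold ContDiff Topology

noncomputable section

namespace Pool.Agent.helper62.K3

theorem CH_det_comp (A B : (ℂ × ℂ) →L[ℂ] (ℂ × ℂ)) : (A.comp B).det = A.det * B.det :=
  LinearMap.det_comp (A : (ℂ × ℂ) →ₗ[ℂ] (ℂ × ℂ)) (B : (ℂ × ℂ) →ₗ[ℂ] (ℂ × ℂ))

section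
variable {S : Type} [TopologicalSpace S] [ChartedSpace (ℂ × ℂ) S] [IsManifold 𝓘(ℂ, ℂ × ℂ) ω S]

omit [IsManifold 𝓘(ℂ, ℂ × ℂ) ω S] in
/-- The identity has quotient one. -/
theorem CH_one (w : OpenPartialHomeomorph S (ℂ × ℂ) → S → ℂ) (hw : IsVol w)
    (e : OpenPartialHomeomorph S (ℂ × ℂ)) (h : e ∈ atlas (ℂ × ℂ) S) (p : S) (hp : p ∈ e.source) :
    jac w (fun x => x) e e p = 1 := by
  have n := hw.1 e h p hp
  have c : (fun z => e (e.symm z)) =ᶠ[𝓝 (e p)] fun z => z := by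
    filter_upwards [e.open_target.mem_nhds (e.map_source hp)] with z hz
    exact e.right_inv hz
  have d : fderiv ℂ (fun z => e (e.symm z)) (e p) = ContinuousLinearMap.id ℂ (ℂ × ℂ) := by
    rw [c.fderiv_eq]
    exact fderiv_fun_id
  have dd1 : (ContinuousLinearMap.id ℂ (ℂ × ℂ)).det = 1 := by
    exact LinearMap.det_id
  unfold jac
  rw [d, dd1, mul_one, div_self n]

/-- The quotient of a composition. -/
theorem CH_comp (w : OpenPartialHomeomorph S (ℂ × ℂ) → S → ℂ) (hw : IsVol w) (g g' : S → S)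
    (hg : ContMDiff 𝓘(ℂ, ℂ × ℂ) 𝓘(ℂ, ℂ × ℂ) ω g)
    (hg' : ContMDiff 𝓘(ℂ, ℂ × ℂ) 𝓘(ℂ, ℂ × ℂ) ω g')
    (e₁ e₂ e₃ : OpenPartialHomeomorph S (ℂ × ℂ)) (h1 : e₁ ∈ atlas (ℂ × ℂ) S)
    (h2 : e₂ ∈ atlas (ℂ × ℂ) S) (h3 : e₃ ∈ atlas (ℂ × ℂ) S) (p : S) (hp1 : p ∈ e₁.source)
    (hp2 : g' p ∈ e₂.source) (hp3 : g (g' p) ∈ e₃.source) :
    jac w (fun x => g (g' x)) e₁ e₃ p = jac w g e₂ e₃ (g' p) * jac w g' e₁ e₂ p := by
  have n2 := hw.1 e₂ h2 (g' p) hp2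
  have n1 := hw.1 e₁ h1 p hp1
  have d1 : DifferentiableAt ℂ (fun z => e₂ (g' (e₁.symm z))) (e₁ p) :=
    (CHA_smooth g' hg' e₁ e₂ h1 h2 p hp1 hp2).differentiableAt (by simp)
  have d2 : DifferentiableAt ℂ (fun z => e₃ (g (e₂.symm z))) (e₂ (g' p)) :=
    (CHA_smooth g hg e₂ e₃ h2 h3 (g' p) hp2 hp3).differentiableAt (by simp)
  have hV : (fun z => e₂ (g' (e₁.symm z))) (e₁ p) = e₂ (g' p) := by simp [e₁.left_inv hp1]
  have hD1 := d1.hasFDerivAt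
  have hD2 := d2.hasFDerivAt
  rw [← hV] at hD2
  have c := hD2.comp (e₁ p) hD1
  rw [hV] at c
  have c3 : (fun z => e₃ (g (g' (e₁.symm z)))) =ᶠ[𝓝 (e₁ p)]
      ((fun z => e₃ (g (e₂.symm z))) ∘ fun z => e₂ (g' (e₁.symm z))) := by
    filter_upwards [CHA_left e₂ g' hg'.continuous p e₁ hp1 hp2] with z hz
    simp only [Function.comp_apply]
    rw [hz]
  have c4 := c.congr_of_eventuallyEq c3
  have hf : fderiv ℂ (fun z => e₃ (g (g' (e₁.symm z)))) (e₁ p) =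
      (fderiv ℂ (fun z => e₃ (g (e₂.symm z))) (e₂ (g' p))).comp
        (fderiv ℂ (fun z => e₂ (g' (e₁.symm z))) (e₁ p)) := c4.fderiv
  unfold jac
  rw [hf, CH_det_comp]
  field_simp

/-- hk:CH the character on the holomorphic 2-form (from CHB) -/
theorem CH [CompactSpace S] [T2Space S] [ConnectedSpace S] (hc : HasTrivialCanonical S)
    {G : Type} [Group G] (ρ : G →* (S ≃ₜ S))
    (hρ : ∀ g, ContMDiff 𝓘(ℂ, ℂ × ℂ) 𝓘(ℂ, ℂ × ℂ) ω (ρ g)) :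
    ∃ c : G →* ℂ, ∀ (g : G) (p : S), ρ g p = p → (locD (ρ g) p).det = c g := by
  obtain ⟨w, hw1, hw2, hw3⟩ := hc
  have hw : IsVol w := ⟨hw1, hw2, hw3⟩
  have key : ∀ g : G, ∃ c : ℂ, ∀ e ∈ atlas (ℂ × ℂ) S, ∀ e' ∈ atlas (ℂ × ℂ) S, ∀ p ∈ e.source,
      ρ g p ∈ e'.source → jac w (ρ g) e e' p = c := fun g => CHB w hw (ρ g) (hρ g)
  choose c hcc using key
  obtain ⟨x0⟩ : Nonempty S := inferInstance
  have ch : ∀ x : S, chartAt (ℂ × ℂ) x ∈ atlas (ℂ × ℂ) S := fun x => chart_mem_atlas _ x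
  have cs : ∀ x : S, x ∈ (chartAt (ℂ × ℂ) x).source := fun x => mem_chart_source _ x
  refine ⟨⟨⟨c, ?_⟩, ?_⟩, ?_⟩
  · have h := hcc 1 (chartAt (ℂ × ℂ) x0) (ch x0) (chartAt (ℂ × ℂ) x0) (ch x0) x0 (cs x0)
      (by rw [map_one]; exact cs x0)
    rw [← h]
    have h' : (fun x => (ρ (1 : G)) x) = fun x : S => x := by
      funext x
      rw [map_one]
      rfl
    have := CH_one w hw (chartAt (ℂ × ℂ) x0) (ch x0) x0 (cs x0)
    rw [← h'] at this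
    exact this
  · intro g g'
    have hmul : ∀ x : S, (ρ (g * g')) x = ρ g (ρ g' x) := by
      intro x
      rw [map_mul]
      rfl
    have h1 := hcc (g * g') (chartAt (ℂ × ℂ) x0) (ch x0) (chartAt (ℂ × ℂ) (ρ g (ρ g' x0)))
      (ch _) x0 (cs x0) (by rw [hmul]; exact cs _)
    have h2 := hcc g (chartAt (ℂ × ℂ) (ρ g' x0)) (ch _) (chartAt (ℂ × ℂ) (ρ g (ρ g' x0)))
      (ch _) (ρ g' x0) (cs _) (cs _)
    have h3 := hcc g' (chartAt (ℂ × ℂ) x0) (ch _) (chartAt (ℂ × ℂ) (ρ g' x0))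
      (ch _) x0 (cs _) (cs _)
    have h4 := CH_comp w hw (ρ g) (ρ g') (hρ g) (hρ g') (chartAt (ℂ × ℂ) x0)
      (chartAt (ℂ × ℂ) (ρ g' x0)) (chartAt (ℂ × ℂ) (ρ g (ρ g' x0))) (ch _) (ch _) (ch _) x0
      (cs _) (cs _) (cs _)
    have h5 : (fun x => (ρ (g * g')) x) = fun x : S => ρ g (ρ g' x) := funext hmul
    rw [← h5] at h4
    change c (g * g') = c g * c g'
    rw [← h1, ← h2, ← h3]
    exact h4
  · intro g p hp
    have h := hcc g (chartAt (ℂ × ℂ) p) (ch p) (chartAt (ℂ × ℂ) p) (ch p) p (cs p)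
      (by rw [hp]; exact cs p)
    have n := hw1 (chartAt (ℂ × ℂ) p) (ch p) p (cs p)
    change (locD (ρ g) p).det = c g
    rw [← h]
    unfold jac locD
    rw [hp]
    field_simp

end

end Pool.Agent.helper62.K3
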